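import Mathlib

/-!
# Prime factors of `d + x ^ 2`, `x` odd (MP_e8a6f8_nt): definitions and basic lemmas
-/

namespace Pool.Agent.J6H70.MO

/-- The largest number of distinct prime factors of `d + x ^ 2` over the odd `x` with
`1 ≤ x ≤ √d`. -/
def Modd (d : ℕ) : ℕ :=
  ((Finset.Icc 1 (Nat.sqrt d)).filter (fun x => Odd x)).sup (fun x => (d + x ^ 2).primeFactors.card)

/-- The list of the 44 exceptional values, as a list. -/
def SL : List ℕ :=
  [18, 50, 54, 90, 98, 126, 162, 198, 242, 250, 294, 342, 378, 450, 522, 550, 558, 702, 722,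
   850, 882, 918, 1078, 1150, 1422, 1450, 2662, 2842, 3250, 3798, 4018, 4698, 4750, 5350, 7018, 9802,
   11650, 12838, 16762, 17182, 20938, 23998, 30682, 48778]

/-- The set of the 44 exceptional values. -/
def S : Finset ℕ :=
  {18, 50, 54, 90, 98, 126, 162, 198, 242, 250, 294, 342, 378, 450, 522, 550, 558, 702, 722,
   850, 882, 918, 1078, 1150, 1422, 1450, 2662, 2842, 3250, 3798, 4018, 4698, 4750, 5350, 7018, 9802,
   11650, 12838, 16762, 17182, 20938, 23998, 30682, 48778}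

theorem mem_S_of_mem_SL {d : ℕ} (h : d ∈ SL) : d ∈ S := by
  simpa [SL, S] using h

theorem mem_SL_of_mem_S {d : ℕ} (h : d ∈ S) : d ∈ SL := by
  simpa [SL, S] using h

theorem card_le_Modd {d x : ℕ} (hx : Odd x) (hxd : x * x ≤ d) :
    (d + x ^ 2).primeFactors.card ≤ Modd d := by
  have hmem : x ∈ (Finset.Icc 1 (Nat.sqrt d)).filter (fun x => Odd x) := by
    simp only [Finset.mem_filter, Finset.mem_Icc]
    exact ⟨⟨hx.pos, Nat.le_sqrt.2 hxd⟩, hx⟩
  exact Finset.le_sup (f := fun x => (d + x ^ 2).primeFactors.card) hmem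

theorem Modd_le {d k : ℕ} (h : ∀ x, Odd x → x * x ≤ d → (d + x ^ 2).primeFactors.card ≤ k) :
    Modd d ≤ k := by
  refine Finset.sup_le (fun x hx => ?_)
  simp only [Finset.mem_filter, Finset.mem_Icc] at hx
  exact h x hx.2 (Nat.le_sqrt.1 hx.1.2)

/-- Three pairwise coprime divisors bigger than one give three prime factors. -/
theorem three_le_card {n a b c : ℕ} (hn : n ≠ 0) (ha : 1 < a) (hb : 1 < b) (hc : 1 < c)
    (hna : a ∣ n) (hnb : b ∣ n) (hnc : c ∣ n) (hab : Nat.Coprime a b) (hac : Nat.Coprime a c)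
    (hbc : Nat.Coprime b c) : 3 ≤ n.primeFactors.card := by
  have key : ∀ u v : ℕ, 1 < u → 1 < v → Nat.Coprime u v → u.minFac ≠ v.minFac := by
    intro u v hu hv huv h
    have h1 : u.minFac ∣ Nat.gcd u v := Nat.dvd_gcd (Nat.minFac_dvd u) (h ▸ Nat.minFac_dvd v)
    rw [huv] at h1
    exact (Nat.minFac_prime (by omega : u ≠ 1)).one_lt.ne' (Nat.dvd_one.1 h1)
  have hsub : ({a.minFac, b.minFac, c.minFac} : Finset ℕ) ⊆ n.primeFactors := by
    intro p hp
    simp only [Finset.mem_insert, Finset.mem_singleton] at hp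
    rcases hp with rfl | rfl | rfl
    · exact Nat.mem_primeFactors.2 ⟨Nat.minFac_prime (by omega), (Nat.minFac_dvd a).trans hna, hn⟩
    · exact Nat.mem_primeFactors.2 ⟨Nat.minFac_prime (by omega), (Nat.minFac_dvd b).trans hnb, hn⟩
    · exact Nat.mem_primeFactors.2 ⟨Nat.minFac_prime (by omega), (Nat.minFac_dvd c).trans hnc, hn⟩
  have hcard : ({a.minFac, b.minFac, c.minFac} : Finset ℕ).card = 3 := by
    rw [Finset.card_eq_three]
    exact ⟨_, _, _, key a b ha hb hab, key a c ha hc hac, key b c hb hc hbc, rfl⟩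
  rw [← hcard]
  exact Finset.card_le_card hsub

/-- The test on a triple. -/
def ver (n a b c : ℕ) : Bool :=
  cond (Nat.ble a 1) false (cond (Nat.ble b 1) false (cond (Nat.ble c 1) false
    (cond (Nat.beq (n % a) 0) (cond (Nat.beq (n % b) 0) (cond (Nat.beq (n % c) 0)
      (cond (Nat.beq (Nat.gcd a b) 1) (cond (Nat.beq (Nat.gcd a c) 1) (Nat.beq (Nat.gcd b c) 1)
        false) false) false) false) false)))

theorem cond_fl {a b : Bool} (h : cond a false b = true) : a = false ∧ b = true := by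
  cases a <;> simp_all

theorem cond_fr {a b : Bool} (h : cond a b false = true) : a = true ∧ b = true := by
  cases a <;> simp_all

theorem cond_t {a b : Bool} (h : cond a true b = true) : a = true ∨ b = true := by
  cases a <;> simp_all

theorem ver_spec {n a b c : ℕ} (hn : n ≠ 0) (h : ver n a b c = true) :
    3 ≤ n.primeFactors.card := by
  unfold ver at h
  obtain ⟨h1, h⟩ := cond_fl h
  obtain ⟨h2, h⟩ := cond_fl h
  obtain ⟨h3, h⟩ := cond_fl h
  obtain ⟨h4, h⟩ := cond_fr h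
  obtain ⟨h5, h⟩ := cond_fr h
  obtain ⟨h6, h⟩ := cond_fr h
  obtain ⟨h7, h⟩ := cond_fr h
  obtain ⟨h8, h9⟩ := cond_fr h
  have e1 : 1 < a := by
    by_contra hh
    rw [Nat.ble_eq_true_of_le (by omega)] at h1
    exact Bool.noConfusion h1
  have e2 : 1 < b := by
    by_contra hh
    rw [Nat.ble_eq_true_of_le (by omega)] at h2
    exact Bool.noConfusion h2
  have e3 : 1 < c := by
    by_contra hh
    rw [Nat.ble_eq_true_of_le (by omega)] at h3
    exact Bool.noConfusion h3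
  exact three_le_card hn e1 e2 e3 (Nat.dvd_of_mod_eq_zero (Nat.eq_of_beq_eq_true h4))
    (Nat.dvd_of_mod_eq_zero (Nat.eq_of_beq_eq_true h5))
    (Nat.dvd_of_mod_eq_zero (Nat.eq_of_beq_eq_true h6))
    (Nat.eq_of_beq_eq_true h7) (Nat.eq_of_beq_eq_true h8) (Nat.eq_of_beq_eq_true h9)

/-- Try to split `g` along the given numbers. -/
def trySplit (n g c : ℕ) : List ℕ → Bool
  | [] => false
  | s :: t => cond (ver n (Nat.gcd g s) (g / Nat.gcd g s) c) true (trySplit n g c t)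

theorem trySplit_spec {n g c : ℕ} (hn : n ≠ 0) : ∀ {l : List ℕ}, trySplit n g c l = true →
    3 ≤ n.primeFactors.card
  | [], h => by simp [trySplit] at h
  | s :: t, h => by
    unfold trySplit at h
    rcases cond_t h with h | h
    · exact ver_spec hn h
    · exact trySplit_spec hn h

/-- The product of the odd primes below 100. -/
def G : ℕ := 1152783981972759212376551073665878035

/-- Products of odd primes below 100, so that any two of these primes are separated. -/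
def splitters : List ℕ := [2984574035449004515,
   7142143535043342749,
   34548948171231352079,
   8618654420261,
   1199092733403101]

/-- The test for one value `n = d + x ^ 2`, with `g` the gcd of `n` and `G`. -/
def step' (n g : ℕ) : Bool :=
  cond (Nat.beq g 1) false (trySplit n g (n / Nat.gcd n (g ^ 14)) splitters)

theorem step'_spec {n g : ℕ} (hn : n ≠ 0) (h : step' n g = true) : 3 ≤ n.primeFactors.card :=
  trySplit_spec hn (cond_fl h).2

/-- The search over the odd `x`. -/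
def quick (d : ℕ) : ℕ → ℕ → Bool
  | 0, _ => false
  | k + 1, x => cond (Nat.ble (x * x) d)
      (cond (step' (d + x * x) (Nat.gcd (d + x * x) G)) true (quick d k (x + 2))) false

theorem quick_spec {d : ℕ} : ∀ {k x : ℕ}, Odd x → quick d k x = true → 3 ≤ Modd d
  | 0, x, _, h => by simp [quick] at h
  | k + 1, x, hx, h => by
    unfold quick at h
    obtain ⟨h1, h⟩ := cond_fr h
    have hxd : x * x ≤ d := Nat.le_of_ble_eq_true h1
    rcases cond_t h with h | h
    · have hpos := hx.pos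
      have := step'_spec (n := d + x * x) (by positivity) h
      rw [← sq] at this
      exact this.trans (card_le_Modd hx hxd)
    · exact quick_spec (by obtain ⟨y, rfl⟩ := hx; exact ⟨y + 1, by ring⟩) h

/-- A certificate `(d, x, a, b, c)`. -/
def certOk (d : ℕ) (t : ℕ × ℕ × ℕ × ℕ × ℕ) : Bool :=
  cond (Nat.beq d t.1) (cond (Nat.beq (t.2.1 % 2) 1) (cond (Nat.ble (t.2.1 * t.2.1) d)
    (ver (d + t.2.1 * t.2.1) t.2.2.1 t.2.2.2.1 t.2.2.2.2) false) false) false

def inCerts (d : ℕ) : List (ℕ × ℕ × ℕ × ℕ × ℕ) → Bool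
  | [] => false
  | t :: l => cond (certOk d t) true (inCerts d l)

theorem inCerts_spec {d : ℕ} : ∀ {l}, inCerts d l = true → 3 ≤ Modd d
  | [], h => by simp [inCerts] at h
  | t :: l, h => by
    unfold inCerts at h
    rcases cond_t h with h | h
    · unfold certOk at h
      obtain ⟨h1, h⟩ := cond_fr h
      obtain ⟨h2, h⟩ := cond_fr h
      obtain ⟨h3, h⟩ := cond_fr h
      have hx : Odd t.2.1 := Nat.odd_iff.2 (Nat.eq_of_beq_eq_true h2)
      have hpos := hx.pos
      have := ver_spec (n := d + t.2.1 * t.2.1) (by positivity) h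
      rw [← sq] at this
      exact this.trans (card_le_Modd hx (Nat.le_of_ble_eq_true h3))
    · exact inCerts_spec h

def inList (d : ℕ) : List ℕ → Bool
  | [] => false
  | t :: l => cond (Nat.beq d t) true (inList d l)

theorem inList_spec {d : ℕ} : ∀ {l}, inList d l = true → d ∈ l
  | [], h => by simp [inList] at h
  | t :: l, h => by
    unfold inList at h
    rcases cond_t h with h | h
    · rw [Nat.eq_of_beq_eq_true h]; exact List.mem_cons_self
    · exact List.mem_cons_of_mem _ (inList_spec h)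

/-- The certificates for the values which the search misses. -/
def certs : List (ℕ × ℕ × ℕ × ℕ × ℕ) :=
  [(150, 9, 3, 7, 11), (234, 9, 3, 5, 7), (270, 15, 3, 5, 11), (306, 3, 3, 5, 7), 
   (338, 17, 3, 11, 19), (350, 7, 3, 7, 19), (414, 9, 3, 5, 11), (486, 3, 3, 5, 11), 
   (490, 15, 5, 11, 13), (578, 7, 3, 11, 19), (594, 1, 5, 7, 17), (630, 15, 3, 5, 19), 
   (650, 1, 3, 7, 31), (666, 7, 5, 11, 13), (686, 7, 3, 5, 7), (726, 3, 3, 5, 7), 
   (738, 9, 3, 7, 13), (750, 3, 3, 11, 23), (774, 9, 3, 5, 19), (810, 3, 3, 7, 13), 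
   (846, 3, 3, 5, 19), (950, 5, 3, 5, 13), (954, 9, 3, 5, 23), (990, 5, 5, 7, 29), 
   (1014, 1, 5, 7, 29), (1026, 3, 3, 5, 23), (1050, 9, 3, 13, 29), (1058, 19, 3, 11, 43), 
   (1062, 3, 3, 7, 17), (1098, 27, 3, 7, 29), (1134, 19, 5, 13, 23), (1170, 15, 3, 5, 31), 
   (1206, 9, 3, 11, 13), (1210, 5, 5, 13, 19), (1242, 21, 3, 11, 17), (1250, 5, 3, 5, 17), 
   (1278, 3, 3, 11, 13), (1314, 9, 3, 5, 31), (1350, 15, 3, 5, 7), (1386, 3, 3, 5, 31), 
   (1458, 15, 3, 11, 17), (1494, 1, 5, 13, 23), (1530, 15, 3, 5, 13), (1566, 3, 3, 5, 7), 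
   (1602, 9, 3, 11, 17), (1638, 21, 3, 7, 11), (1666, 17, 5, 17, 23), (1674, 3, 3, 11, 17), 
   (1682, 1, 3, 11, 17), (1690, 9, 7, 11, 23), (1710, 15, 3, 5, 43), (1734, 3, 3, 7, 83), 
   (1746, 3, 3, 5, 13), (1750, 35, 5, 7, 17), (1782, 21, 3, 13, 19), (1818, 3, 3, 7, 29), 
   (1862, 5, 3, 17, 37), (1890, 15, 3, 5, 47), (1922, 5, 3, 11, 59), (1926, 3, 3, 5, 43), 
   (1950, 15, 3, 5, 29), (1962, 27, 3, 13, 23), (1998, 9, 3, 7, 11), (2034, 1, 5, 11, 37), 
   (2050, 15, 5, 7, 13), (2058, 3, 3, 13, 53), (2070, 3, 3, 7, 11), (2142, 9, 3, 13, 19), 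
   (2150, 5, 3, 5, 29), (2178, 27, 3, 17, 19), (2214, 3, 3, 13, 19), (2250, 5, 5, 7, 13), 
   (2254, 1, 5, 11, 41), (2286, 3, 3, 5, 17), (2322, 3, 3, 7, 37), (2350, 9, 11, 13, 17), 
   (2358, 15, 3, 7, 41), (2394, 9, 3, 5, 11), (2430, 1, 11, 13, 17), (2450, 1, 3, 19, 43), 
   (2466, 3, 3, 5, 11), (2502, 9, 3, 7, 41), (2538, 33, 3, 13, 31), (2550, 15, 3, 5, 37), 
   (2646, 3, 3, 5, 59), (2650, 45, 5, 11, 17), (2682, 3, 3, 13, 23), (2718, 45, 3, 17, 31), 
   (2754, 1, 5, 19, 29), (2826, 3, 3, 5, 7), (2862, 3, 3, 11, 29), (2890, 5, 5, 11, 53), 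
   (2898, 3, 3, 17, 19), (2934, 9, 3, 5, 67), (2950, 5, 5, 7, 17), (2970, 15, 3, 5, 71), 
   (3042, 51, 3, 11, 19), (3078, 17, 7, 13, 37), (3150, 21, 3, 7, 19), (3222, 21, 3, 11, 37), 
   (3258, 9, 3, 7, 53), (3402, 7, 7, 17, 29), (3430, 15, 5, 17, 43), (3438, 9, 3, 17, 23), 
   (3474, 9, 3, 5, 79), (3550, 5, 5, 11, 13), (3582, 3, 3, 7, 19), (3610, 3, 7, 11, 47), 
   (3718, 33, 11, 19, 23), (3850, 35, 5, 7, 29), (3942, 33, 3, 13, 43), (3950, 5, 3, 5, 53), 
   (3978, 9, 3, 11, 41), (4014, 1, 5, 11, 73), (4050, 3, 3, 11, 41), (4114, 3, 7, 19, 31), 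
   (4122, 1, 7, 19, 31), (4150, 7, 13, 17, 19), (4158, 21, 3, 7, 73), (4302, 21, 3, 17, 31), 
   (4446, 3, 3, 5, 11), (4482, 39, 3, 23, 29), (4878, 1, 7, 17, 41), (4950, 3, 3, 19, 29), 
   (5022, 3, 3, 13, 43), (5050, 5, 5, 7, 29), (5058, 5, 13, 17, 23), (5202, 21, 3, 11, 19), 
   (5562, 9, 3, 11, 19), (5566, 13, 5, 31, 37), (5650, 75, 5, 11, 41), (5742, 11, 11, 13, 41), 
   (5782, 9, 11, 13, 41), (5850, 3, 3, 7, 31), (5958, 3, 3, 13, 17), (6102, 3, 3, 7, 97), 
   (6318, 3, 3, 19, 37), (6358, 11, 11, 19, 31), (6462, 21, 3, 13, 59), (6498, 9, 3, 17, 43), 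
   (6550, 25, 5, 7, 41), (6850, 1, 13, 17, 31), (6958, 7, 7, 11, 13), (7182, 3, 3, 17, 47), 
   (7450, 5, 5, 13, 23), (7578, 1, 11, 13, 53), (7722, 11, 11, 23, 31), (7750, 15, 5, 11, 29), 
   (7942, 27, 13, 23, 29), (8262, 15, 3, 23, 41), (8650, 25, 5, 7, 53), (8722, 1, 11, 13, 61), 
   (8838, 15, 3, 19, 53), (8950, 31, 11, 17, 53), (9342, 5, 17, 19, 29), (9522, 9, 3, 11, 97), 
   (9550, 15, 5, 17, 23), (9738, 21, 3, 13, 29), (9850, 15, 5, 13, 31), (9898, 77, 7, 17, 19), 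
   (10278, 39, 3, 19, 23), (10602, 45, 3, 23, 61), (11050, 15, 5, 11, 41), 
   (11250, 5, 5, 11, 41), (11638, 7, 13, 29, 31), (11950, 1, 17, 19, 37), 
   (12798, 39, 3, 37, 43), (13150, 5, 5, 17, 31), (13750, 5, 5, 19, 29), 
   (13858, 17, 7, 43, 47), (14050, 35, 5, 13, 47), (14350, 7, 7, 11, 17), 
   (15250, 5, 5, 13, 47), (15778, 7, 7, 17, 19), (17350, 15, 5, 19, 37), 
   (17542, 49, 7, 11, 37), (18250, 5, 5, 17, 43), (20350, 55, 5, 11, 17), 
   (24550, 25, 5, 19, 53), (26362, 73, 11, 43, 67), (29302, 91, 7, 13, 59), 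
   (36250, 85, 5, 37, 47), (43318, 143, 11, 17, 31), (55738, 87, 29, 37, 59), 
   (79402, 81, 31, 47, 59), (97498, 11, 31, 47, 67)]

/-- The complete test for `d`. -/
def good (B d : ℕ) : Bool :=
  cond (Nat.ble d B) (cond (quick d 101 1) true (cond (inList d SL) true (inCerts d certs))) true

theorem good_spec {B d : ℕ} (h : good B d = true) (hd : d ≤ B) : d ∈ S ∨ 3 ≤ Modd d := by
  unfold good at h
  rw [Nat.ble_eq_true_of_le hd] at h
  rcases cond_t h with h | h
  · exact Or.inr (quick_spec (by decide) h)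
  · rcases cond_t h with h | h
    · exact Or.inl (mem_S_of_mem_SL (inList_spec h))
    · exact Or.inr (inCerts_spec h)

/-- All values `f s, …, f (s + 2 ^ k - 1)` are true. -/
def allR (f : ℕ → Bool) : ℕ → ℕ → Bool
  | 0, s => f s
  | k + 1, s => cond (allR f k s) (allR f k (s + 2 ^ k)) false

theorem allR_spec {f : ℕ → Bool} : ∀ {k s : ℕ}, allR f k s = true → ∀ i, i < 2 ^ k →
    f (s + i) = true
  | 0, s, h, i, hi => by
    have : i = 0 := by simpa using hi
    subst this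
    simpa [allR] using h
  | k + 1, s, h, i, hi => by
    unfold allR at h
    obtain ⟨h1, h2⟩ := cond_fr h
    by_cases hik : i < 2 ^ k
    · exact allR_spec h1 i hik
    · have := allR_spec h2 (i - 2 ^ k) (by rw [pow_succ] at hi; omega)
      rwa [show s + 2 ^ k + (i - 2 ^ k) = s + i by omega] at this

/-- The test for all `p` and `e`. -/
def block (B lo m k s : ℕ) : Bool :=
  allR (fun i => allR (fun j => good B ((2 * i + lo) * (2 * i + lo) * (4 * j + 2))) k s) m 0

theorem block_spec {B lo m k s : ℕ} (h : block B lo m k s = true) {i j : ℕ} (hi : i < 2 ^ m)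
    (hs : s ≤ j) (hj : j < s + 2 ^ k) (hd : (2 * i + lo) * (2 * i + lo) * (4 * j + 2) ≤ B) :
    (2 * i + lo) * (2 * i + lo) * (4 * j + 2) ∈ S ∨
      3 ≤ Modd ((2 * i + lo) * (2 * i + lo) * (4 * j + 2)) := by
  have h1 := allR_spec h i hi
  have h2 := allR_spec h1 (j - s) (by omega)
  rw [show s + (j - s) = j by omega] at h2
  simp only [zero_add] at h2
  exact good_spec h2 hd

end Pool.Agent.J6H70.MO
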