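import Pool.Agent.J6H70.MO.Crt

/-!
# All square classes with small square-free part (MP_e8a6f8_nt)
-/

namespace Pool.Agent.J6H70.MO

/-- The test with a longer search. -/
def good2 (B d : ℕ) : Bool := cond (good B d) true (quick d 3000 1)

theorem good2_spec {B d : ℕ} (h : good2 B d = true) (hd : d ≤ B) : d ∈ S ∨ 3 ≤ Modd d := by
  unfold good2 at h
  rcases cond_t h with h | h
  · exact good_spec h hd
  · exact Or.inr (quick_spec (by decide) h)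

/-- The test for the square class of `e`. -/
def classOk (e a b c r k : ℕ) : Bool :=
  cond (Nat.ble a 1) false (cond (Nat.ble b 1) false (cond (Nat.ble c 1) false
    (cond (Nat.beq (Nat.gcd a b) 1) (cond (Nat.beq (Nat.gcd a c) 1) (cond (Nat.beq (Nat.gcd b c) 1)
      (cond (Nat.beq ((a * b * c) % 2) 1) (cond (Nat.beq ((e + r * r) % (a * b * c)) 0)
        (cond (Nat.ble ((a * b * c) * (a * b * c)) (e * ((2 * 2 ^ k + 3) * (2 * 2 ^ k + 3))))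
          (allR (fun i => good2 ((a * b * c) * (a * b * c)) (e * ((2 * i + 3) * (2 * i + 3)))) k 0)
          false) false) false) false) false) false)))

theorem one_lt_of_ble {a : ℕ} (h : Nat.ble a 1 = false) : 1 < a := by
  by_contra hh
  rw [Nat.ble_eq_true_of_le (by omega)] at h
  exact Bool.noConfusion h

theorem classOk_spec {e a b c r k : ℕ} (h : classOk e a b c r k = true) {m : ℕ} (hm : Odd m)
    (hm3 : 3 ≤ m) : e * m ^ 2 ∈ S ∨ 3 ≤ Modd (e * m ^ 2) := by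
  unfold classOk at h
  obtain ⟨h1, h⟩ := cond_fl h
  obtain ⟨h2, h⟩ := cond_fl h
  obtain ⟨h3, h⟩ := cond_fl h
  obtain ⟨h4, h⟩ := cond_fr h
  obtain ⟨h5, h⟩ := cond_fr h
  obtain ⟨h6, h⟩ := cond_fr h
  obtain ⟨h7, h⟩ := cond_fr h
  obtain ⟨h8, h⟩ := cond_fr h
  obtain ⟨h9, h10⟩ := cond_fr h
  by_cases hd : (a * b * c) ^ 2 ≤ e * m ^ 2
  · right
    have hdvd : a * b * c ∣ e * m ^ 2 + (r * m) ^ 2 := by
      have h11 : a * b * c ∣ e + r * r := Nat.dvd_of_mod_eq_zero (Nat.eq_of_beq_eq_true h8)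
      have : e * m ^ 2 + (r * m) ^ 2 = (e + r * r) * m ^ 2 := by ring
      rw [this]
      exact h11.mul_right _
    exact three_le_of_root (one_lt_of_ble h1) (one_lt_of_ble h2) (one_lt_of_ble h3)
      (Nat.eq_of_beq_eq_true h4) (Nat.eq_of_beq_eq_true h5) (Nat.eq_of_beq_eq_true h6)
      (Nat.odd_iff.2 (Nat.eq_of_beq_eq_true h7)) hdvd hd
  · have hlt : e * m ^ 2 < (a * b * c) ^ 2 := not_le.1 hd
    have h9' := Nat.le_of_ble_eq_true h9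
    obtain ⟨i, hi⟩ : ∃ i, m = 2 * i + 3 := by
      obtain ⟨y, rfl⟩ := hm
      exact ⟨y - 1, by omega⟩
    have hik : i < 2 ^ k := by
      by_contra hge
      have h12 : 2 * 2 ^ k + 3 ≤ m := by omega
      have h13 : (2 * 2 ^ k + 3) * (2 * 2 ^ k + 3) ≤ m * m := Nat.mul_le_mul h12 h12
      have h14 := Nat.mul_le_mul_left e h13
      rw [sq, sq] at hlt
      omega
    have hgood := allR_spec h10 i hik
    simp only [zero_add] at hgood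
    have hle : e * ((2 * i + 3) * (2 * i + 3)) ≤ (a * b * c) * (a * b * c) := by
      rw [← hi, ← sq, ← sq]
      exact hlt.le
    have := good2_spec hgood hle
    rwa [← hi, ← sq] at this

def classesOk : ℕ → List (ℕ × ℕ × ℕ × ℕ × ℕ) → Bool
  | _, [] => true
  | e, t :: l => cond (classOk e t.1 t.2.1 t.2.2.1 t.2.2.2.1 t.2.2.2.2) (classesOk (e + 4) l) false

theorem classesOk_spec : ∀ {l : List (ℕ × ℕ × ℕ × ℕ × ℕ)} {e : ℕ}, classesOk e l = true →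
    ∀ i, i < l.length → ∀ m, Odd m → 3 ≤ m →
      (e + 4 * i) * m ^ 2 ∈ S ∨ 3 ≤ Modd ((e + 4 * i) * m ^ 2)
  | [], _, _, i, hi, _, _, _ => by simp at hi
  | t :: l, e, h, i, hi, m, hm, hm3 => by
    unfold classesOk at h
    obtain ⟨h1, h2⟩ := cond_fr h
    rcases Nat.eq_zero_or_pos i with rfl | hpos
    · simpa using classOk_spec h1 hm hm3
    · have := classesOk_spec h2 (i - 1) (by simp at hi; omega) m hm hm3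
      rwa [show e + 4 + 4 * (i - 1) = e + 4 * i by omega] at this

/-- The certificates `(a, b, c, r, k)` for `e = 2, 6, 10, …`. -/
def classes : List (ℕ × ℕ × ℕ × ℕ × ℕ) :=
  [(3, 11, 17, 58, 8), (3, 5, 7, 57, 5), (5, 7, 11, 100, 6), (3, 5, 7, 91, 4), 
   (3, 11, 17, 123, 7), (11, 13, 19, 1562, 9), (3, 5, 7, 52, 4), (3, 5, 11, 60, 4), 
   (5, 7, 17, 561, 6), (3, 7, 13, 79, 5), (3, 7, 13, 84, 5), (5, 11, 19, 102, 7), 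
   (3, 5, 11, 70, 4), (3, 5, 7, 66, 3), (29, 31, 37, 2668, 12), (3, 7, 11, 211, 4), 
   (3, 5, 7, 72, 3), (5, 7, 17, 245, 6), (3, 5, 11, 16, 4), (3, 13, 19, 234, 6), 
   (7, 13, 29, 185, 8), (3, 5, 17, 157, 4), (3, 5, 7, 15, 3), (5, 7, 11, 191, 5), 
   (3, 7, 11, 133, 4), (3, 17, 23, 765, 6), (5, 11, 17, 552, 6), (3, 5, 7, 10, 2), 
   (3, 5, 13, 186, 3), (7, 11, 13, 148, 6), (3, 7, 19, 121, 5), (3, 5, 7, 42, 2), 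
   (5, 13, 23, 585, 7), (3, 5, 11, 91, 3), (3, 7, 11, 213, 4), (11, 13, 53, 1717, 9), 
   (3, 5, 7, 22, 2), (3, 5, 7, 30, 2), (5, 7, 11, 231, 4), (3, 23, 29, 352, 7), 
   (3, 11, 17, 192, 5), (5, 7, 13, 17, 5), (3, 5, 13, 70, 3), (3, 5, 7, 36, 2), 
   (7, 11, 13, 366, 6), (3, 7, 11, 70, 3), (3, 5, 11, 12, 3), (5, 19, 29, 2185, 7), 
   (3, 5, 7, 31, 2), (3, 11, 13, 396, 4), (7, 17, 19, 1604, 7), (3, 5, 7, 37, 2), 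
   (3, 5, 7, 0, 2), (5, 23, 41, 96, 8), (3, 13, 23, 745, 5), (3, 7, 11, 3, 3), 
   (5, 11, 23, 807, 6), (3, 5, 7, 85, 1), (3, 5, 7, 51, 1), (7, 11, 13, 497, 5), 
   (3, 11, 17, 484, 5), (3, 5, 13, 27, 3), (5, 7, 11, 115, 4), (3, 5, 17, 1, 3), 
   (3, 7, 23, 330, 4), (7, 19, 29, 534, 7), (3, 5, 7, 7, 1), (3, 5, 11, 15, 2), 
   (5, 11, 13, 551, 5), (3, 7, 19, 388, 4), (3, 11, 13, 288, 4), (5, 7, 11, 22, 4), 
   (3, 5, 7, 100, 1), (3, 5, 7, 21, 1), (13, 17, 19, 651, 7), (3, 13, 17, 19, 5), 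
   (3, 5, 7, 87, 1), (5, 11, 17, 25, 5), (3, 5, 7, 1, 1), (3, 7, 11, 177, 3), 
   (7, 13, 17, 511, 6), (3, 5, 11, 112, 2), (3, 5, 11, 0, 2), (5, 7, 13, 171, 4), 
   (3, 11, 13, 247, 4), (3, 7, 13, 120, 3), (5, 7, 41, 1402, 6), (3, 5, 7, 70, 1), 
   (3, 5, 11, 36, 2), (11, 17, 31, 1687, 8), (3, 7, 11, 199, 3), (3, 5, 17, 192, 3), 
   (5, 7, 11, 365, 4), (3, 5, 7, 16, 1), (3, 7, 13, 252, 3), (11, 17, 19, 1754, 7), 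
   (3, 5, 13, 67, 2), (3, 5, 7, 45, 1), (5, 13, 19, 731, 5), (3, 7, 11, 190, 3), 
   (3, 7, 11, 114, 3), (5, 7, 11, 287, 4), (3, 5, 17, 160, 3), (3, 5, 11, 156, 2), 
   (7, 11, 19, 836, 6), (3, 29, 47, 706, 7), (3, 5, 7, 57, 1), (5, 7, 13, 135, 4), 
   (3, 5, 7, 91, 1), (3, 13, 17, 444, 4), (11, 13, 17, 663, 6), (3, 5, 7, 52, 0), 
   (3, 5, 11, 45, 2), (5, 7, 13, 1, 4), (3, 7, 11, 79, 2), (3, 7, 11, 0, 2), 
   (5, 19, 47, 2587, 7), (3, 5, 11, 115, 2), (3, 5, 7, 66, 0), (13, 17, 19, 1486, 7), 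
   (3, 7, 13, 148, 3), (3, 5, 7, 72, 0), (5, 7, 11, 70, 3), (3, 5, 11, 1, 2), 
   (3, 13, 23, 861, 5), (7, 11, 17, 1025, 5), (3, 5, 11, 22, 2), (3, 5, 7, 15, 0), 
   (5, 7, 11, 16, 3), (3, 7, 17, 343, 3), (3, 29, 31, 2610, 6), (5, 17, 19, 1582, 6), 
   (3, 5, 7, 10, 0), (3, 5, 11, 81, 2), (7, 11, 29, 155, 6), (3, 7, 13, 184, 3), 
   (3, 5, 7, 42, 0), (5, 11, 13, 55, 4), (3, 5, 19, 61, 3), (3, 7, 11, 192, 2), 
   (13, 17, 23, 2996, 7), (3, 5, 7, 22, 0), (3, 5, 7, 30, 0), (5, 7, 11, 91, 3), 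
   (3, 11, 17, 136, 4), (3, 11, 13, 342, 3), (5, 7, 13, 122, 3), (3, 5, 11, 145, 1), 
   (3, 5, 7, 36, 0), (7, 13, 23, 1794, 6), (3, 7, 11, 49, 2), (3, 5, 31, 447, 3), 
   (5, 13, 17, 40, 5), (3, 5, 7, 31, 0), (3, 11, 19, 3, 4), (7, 11, 19, 1016, 5), 
   (3, 5, 7, 37, 0), (3, 5, 7, 0, 0), (5, 11, 13, 706, 4), (3, 11, 13, 187, 3), 
   (3, 7, 17, 87, 3), (5, 11, 13, 522, 4), (3, 5, 7, 85, 0), (3, 5, 7, 51, 0), 
   (7, 19, 23, 1015, 6), (3, 11, 13, 157, 3), (3, 5, 11, 147, 1), (5, 7, 11, 45, 3), 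
   (3, 5, 23, 211, 3), (3, 7, 11, 57, 2), (7, 11, 17, 891, 5), (3, 5, 7, 7, 0), 
   (3, 5, 11, 60, 1), (5, 19, 31, 1466, 6), (3, 7, 13, 262, 2), (3, 13, 19, 39, 4), 
   (5, 7, 11, 267, 3), (3, 5, 7, 100, 0), (3, 5, 7, 21, 0), (13, 17, 19, 2320, 7), 
   (3, 11, 17, 343, 4), (3, 5, 7, 87, 0), (5, 17, 19, 1565, 5), (3, 5, 7, 1, 0), 
   (3, 7, 13, 30, 2), (7, 13, 31, 70, 6), (3, 5, 17, 142, 2), (3, 5, 11, 135, 1), 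
   (5, 7, 11, 136, 3), (3, 11, 13, 133, 3), (3, 7, 19, 120, 3), (5, 7, 11, 2, 3), 
   (3, 5, 7, 70, 0), (3, 5, 17, 141, 2), (11, 17, 19, 1787, 6), (3, 7, 17, 136, 3), 
   (3, 5, 17, 42, 2), (5, 7, 13, 225, 3), (3, 5, 7, 16, 0), (3, 7, 11, 147, 2), 
   (11, 13, 23, 1640, 6), (3, 5, 13, 52, 1), (3, 5, 7, 45, 0), (5, 11, 17, 176, 4), 
   (3, 7, 13, 1, 2), (3, 7, 11, 93, 2), (5, 7, 23, 672, 4), (3, 5, 19, 100, 2), 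
   (3, 5, 17, 21, 2), (7, 11, 19, 234, 5), (3, 11, 13, 4, 3), (3, 5, 7, 57, 0), 
   (5, 7, 17, 170, 4), (3, 5, 7, 91, 0), (3, 11, 13, 0, 3), (13, 23, 37, 6633, 8), 
   (3, 5, 7, 52, 0), (3, 5, 13, 105, 1), (5, 7, 13, 71, 3), (3, 7, 37, 751, 4), 
   (3, 7, 11, 168, 2), (5, 11, 17, 92, 4), (3, 5, 11, 100, 1), (3, 5, 7, 66, 0), 
   (11, 13, 29, 4061, 7), (3, 7, 11, 22, 2), (3, 5, 7, 72, 0), (5, 7, 11, 280, 3), 
   (3, 5, 13, 16, 1), (3, 17, 23, 51, 5), (7, 13, 17, 1249, 5), (3, 5, 11, 157, 1), 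
   (3, 5, 7, 15, 0), (5, 7, 11, 331, 3), (3, 7, 41, 259, 4), (3, 11, 23, 24, 4), 
   (5, 11, 13, 407, 4), (3, 5, 7, 10, 0), (3, 5, 11, 126, 1), (7, 13, 19, 197, 5), 
   (3, 7, 13, 247, 2), (3, 5, 7, 42, 0), (5, 11, 17, 905, 4), (3, 5, 11, 136, 1), 
   (3, 7, 11, 45, 2), (17, 19, 29, 7890, 8), (3, 5, 7, 22, 0), (3, 5, 7, 30, 0), 
   (5, 7, 17, 581, 3), (3, 11, 13, 82, 3), (3, 13, 17, 18, 4), (5, 7, 19, 647, 4), 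
   (3, 5, 13, 145, 1), (3, 5, 7, 36, 0), (7, 11, 13, 653, 4), (3, 7, 11, 133, 2), 
   (3, 5, 13, 27, 1), (5, 11, 13, 695, 4), (3, 5, 7, 31, 0), (3, 17, 19, 939, 4), 
   (7, 11, 23, 533, 5), (3, 5, 7, 37, 0), (3, 5, 7, 0, 0), (5, 13, 17, 1071, 4), 
   (3, 11, 17, 25, 3), (3, 7, 11, 213, 2), (5, 11, 13, 507, 4), (3, 5, 7, 85, 0), 
   (3, 5, 7, 51, 0), (7, 11, 13, 924, 4), (3, 13, 19, 58, 4), (3, 5, 11, 27, 1), 
   (5, 7, 17, 500, 3), (3, 5, 37, 226, 3), (3, 7, 19, 78, 3), (7, 11, 13, 212, 4), 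
   (3, 5, 7, 7, 0), (3, 5, 11, 45, 0), (5, 13, 17, 821, 4), (3, 7, 11, 178, 1), 
   (3, 11, 13, 198, 3), (5, 7, 17, 127, 3), (3, 5, 7, 100, 0), (3, 5, 7, 21, 0), 
   (17, 23, 29, 6104, 8), (3, 19, 23, 424, 5), (3, 5, 7, 87, 0), (5, 11, 19, 345, 4), 
   (3, 5, 7, 1, 0), (3, 7, 13, 135, 2), (7, 11, 19, 574, 5), (3, 5, 11, 22, 0), 
   (3, 5, 13, 0, 1), (5, 7, 11, 346, 3), (3, 19, 23, 1273, 5), (3, 7, 13, 183, 2), 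
   (5, 7, 13, 422, 3), (3, 5, 7, 70, 0), (3, 5, 11, 81, 0), (11, 17, 29, 1805, 7), 
   (3, 7, 29, 178, 3), (3, 5, 11, 57, 0), (5, 7, 11, 330, 3), (3, 5, 7, 16, 0), 
   (3, 7, 11, 126, 1), (13, 17, 29, 4732, 7), (3, 5, 13, 172, 1), (3, 5, 7, 45, 0), 
   (5, 11, 13, 586, 4), (3, 7, 11, 169, 1), (3, 7, 11, 177, 1), (5, 7, 29, 987, 4), 
   (3, 5, 11, 145, 0), (3, 5, 11, 66, 0), (7, 13, 17, 17, 5), (3, 11, 13, 148, 3), 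
   (3, 5, 7, 57, 0), (5, 7, 13, 275, 3), (3, 5, 7, 91, 0), (3, 11, 13, 3, 3), 
   (11, 23, 29, 4910, 7), (3, 5, 7, 52, 0), (3, 5, 13, 45, 1), (5, 7, 11, 211, 2), 
   (3, 7, 11, 121, 1), (3, 7, 19, 231, 3), (5, 11, 19, 522, 4), (3, 5, 13, 160, 1), 
   (3, 5, 7, 66, 0), (17, 23, 29, 8675, 8), (3, 7, 11, 190, 1), (3, 5, 7, 72, 0), 
   (5, 7, 11, 210, 2), (3, 5, 17, 241, 1), (3, 11, 13, 222, 3), (7, 11, 13, 682, 4), 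
   (3, 5, 31, 7, 3), (3, 5, 7, 15, 0), (5, 7, 23, 191, 4), (3, 7, 17, 91, 2), 
   (3, 13, 17, 381, 3), (5, 11, 13, 707, 4), (3, 5, 7, 10, 0), (3, 5, 11, 111, 0), 
   (7, 13, 17, 1534, 5), (3, 7, 11, 79, 1), (3, 5, 7, 42, 0), (5, 13, 17, 495, 4), 
   (3, 5, 11, 16, 0), (3, 7, 17, 297, 2), (17, 19, 23, 4049, 7), (3, 5, 7, 22, 0), 
   (3, 5, 7, 30, 0), (5, 7, 11, 301, 2), (3, 11, 13, 265, 3), (3, 23, 29, 186, 5), 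
   (5, 7, 11, 332, 2), (3, 5, 11, 55, 0), (3, 5, 7, 36, 0), (7, 11, 19, 632, 5), 
   (3, 7, 13, 196, 2), (3, 5, 13, 162, 1), (5, 29, 31, 4350, 6), (3, 5, 7, 31, 0), 
   (3, 11, 17, 444, 3), (7, 11, 17, 1156, 4), (3, 5, 7, 37, 0), (3, 5, 7, 0, 0), 
   (5, 11, 29, 11, 5), (3, 13, 17, 613, 3), (3, 7, 11, 192, 1), (5, 13, 23, 302, 5), 
   (3, 5, 7, 85, 0), (3, 5, 7, 51, 0), (7, 11, 13, 630, 4), (3, 11, 23, 4, 4), 
   (3, 5, 11, 12, 0), (5, 7, 23, 10, 4), (3, 5, 11, 46, 0), (3, 7, 11, 99, 1), 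
   (7, 13, 17, 226, 5), (3, 5, 7, 7, 0), (3, 5, 13, 15, 0), (5, 13, 17, 416, 4), 
   (3, 7, 13, 94, 1), (3, 11, 19, 498, 3), (5, 7, 11, 92, 2), (3, 5, 7, 100, 0), 
   (3, 5, 7, 21, 0), (11, 19, 23, 57, 6), (3, 11, 17, 550, 3), (3, 5, 7, 87, 0), 
   (5, 11, 13, 225, 3), (3, 5, 7, 1, 0), (3, 7, 23, 72, 3), (7, 13, 17, 1211, 5), 
   (3, 5, 11, 157, 0), (3, 5, 11, 15, 0), (5, 7, 11, 276, 2), (3, 13, 17, 391, 3), 
   (3, 7, 11, 57, 1), (5, 7, 11, 352, 2), (3, 5, 7, 70, 0), (3, 5, 11, 126, 0), 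
   (19, 29, 31, 8592, 8), (3, 7, 13, 199, 1), (3, 5, 13, 57, 0), (5, 7, 11, 190, 2), 
   (3, 5, 7, 16, 0), (3, 7, 11, 210, 1), (13, 19, 31, 900, 7), (3, 5, 11, 112, 0), 
   (3, 5, 7, 45, 0), (5, 13, 23, 396, 5), (3, 7, 11, 148, 1), (3, 7, 17, 240, 2), 
   (5, 7, 17, 357, 3), (3, 5, 17, 25, 1), (3, 5, 11, 36, 0), (7, 11, 13, 213, 4), 
   (3, 11, 17, 1, 3), (3, 5, 7, 57, 0), (5, 7, 11, 310, 2), (3, 5, 7, 91, 0), 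
   (3, 17, 23, 669, 4), (11, 13, 17, 313, 5), (3, 5, 7, 52, 0), (3, 5, 19, 0, 1), 
   (5, 7, 37, 1226, 4), (3, 7, 11, 58, 1), (3, 7, 11, 147, 1), (5, 11, 13, 342, 3), 
   (3, 5, 13, 70, 0), (3, 5, 7, 66, 0), (11, 13, 17, 1419, 5), (3, 7, 13, 169, 1), 
   (3, 5, 7, 72, 0), (5, 7, 17, 35, 3), (3, 5, 13, 1, 0), (3, 13, 19, 630, 3), 
   (7, 11, 19, 465, 4), (3, 5, 11, 37, 0), (3, 5, 7, 15, 0), (5, 7, 29, 506, 4), 
   (3, 7, 11, 112, 1), (3, 11, 13, 330, 2), (5, 17, 19, 1007, 5), (3, 5, 7, 10, 0), 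
   (3, 5, 13, 156, 0), (7, 13, 17, 393, 5), (3, 7, 17, 289, 2), (3, 5, 7, 42, 0), 
   (5, 11, 13, 565, 3), (3, 5, 11, 1, 0), (3, 7, 17, 171, 2), (11, 23, 29, 3665, 7), 
   (3, 5, 7, 22, 0), (3, 5, 7, 30, 0), (5, 7, 11, 126, 2), (3, 17, 19, 313, 4), 
   (3, 13, 19, 210, 3), (5, 7, 13, 52, 2), (3, 5, 11, 25, 0), (3, 5, 7, 36, 0), 
   (7, 11, 13, 716, 4), (3, 7, 13, 175, 1), (3, 5, 11, 57, 0), (5, 11, 17, 0, 4), 
   (3, 5, 7, 31, 0), (3, 11, 17, 258, 3), (7, 13, 23, 1681, 5), (3, 5, 7, 37, 0), 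
   (3, 5, 7, 0, 0), (5, 11, 13, 366, 3), (3, 11, 13, 169, 2), (3, 7, 11, 45, 1), 
   (5, 17, 23, 7, 5), (3, 5, 7, 85, 0), (3, 5, 7, 51, 0), (7, 19, 29, 875, 6), 
   (3, 11, 17, 412, 3), (3, 5, 23, 57, 2), (5, 7, 17, 430, 3), (3, 5, 13, 121, 0), 
   (3, 7, 11, 36, 1), (7, 11, 17, 807, 4), (3, 5, 7, 7, 0), (3, 5, 13, 0, 0), 
   (5, 11, 13, 211, 3), (3, 7, 11, 220, 1), (3, 13, 23, 27, 4), (5, 7, 11, 302, 2), 
   (3, 5, 7, 100, 0), (3, 5, 7, 21, 0), (19, 23, 29, 10304, 8), (3, 11, 31, 256, 4), 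
   (3, 5, 7, 87, 0), (5, 11, 13, 265, 3), (3, 5, 7, 1, 0), (3, 7, 11, 156, 1)]

theorem classes_length : classes.length = 500 := by decide +kernel

theorem classes_ok : classesOk 2 classes = true := by decide +kernel

/-- Every square class of `e < 2000`, `e ≡ 2 mod 4`. -/
theorem class_main {e m : ℕ} (he : e % 4 = 2) (he2 : e < 2000) (hm : Odd m) (hm3 : 3 ≤ m) :
    e * m ^ 2 ∈ S ∨ 3 ≤ Modd (e * m ^ 2) := by
  have h := classesOk_spec classes_ok ((e - 2) / 4) (by rw [classes_length]; omega) m hm hm3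
  rwa [show 2 + 4 * ((e - 2) / 4) = e by omega] at h

end Pool.Agent.J6H70.MO
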