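import Pool.Agent.J6H70.MO.Basic

/-!
# The criterion with three moduli, and fixed square classes (MP_e8a6f8_nt)
-/

namespace Pool.Agent.J6H70.MO

theorem dvd_sq_add {a : ℤ} {d u v : ℤ} (h : a ∣ d + u ^ 2) (huv : a ∣ v - u) : a ∣ d + v ^ 2 := by
  have : d + v ^ 2 = d + u ^ 2 + (v - u) * (v + u) := by ring
  rw [this]
  exact dvd_add h (huv.mul_right _)

theorem exists_odd_root {d Q w : ℕ} (hQ : 0 < Q) (hw : Odd w) (h : Q ∣ d + w ^ 2) :
    ∃ x, Odd x ∧ x ≤ Q ∧ Q ∣ d + x ^ 2 := by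
  set x0 := w % (2 * Q) with hx0
  have hlt : x0 < 2 * Q := Nat.mod_lt _ (by omega)
  have hdiv : 2 * Q * (w / (2 * Q)) + x0 = w := Nat.div_add_mod w (2 * Q)
  set t := w / (2 * Q)
  have hx0odd : Odd x0 := by
    rw [Nat.odd_iff] at hw ⊢
    have : 2 * Q * t = 2 * (Q * t) := by ring
    omega
  have hz : (Q : ℤ) ∣ (d : ℤ) + (w : ℤ) ^ 2 := by exact_mod_cast Int.natCast_dvd_natCast.2 h
  have hz0 : (Q : ℤ) ∣ (d : ℤ) + (x0 : ℤ) ^ 2 := by
    refine dvd_sq_add hz ?_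
    have : (x0 : ℤ) - w = Q * (-(2 * t)) := by
      have h2 : (w : ℤ) = 2 * Q * t + x0 := by exact_mod_cast hdiv.symm
      rw [h2]; ring
    rw [this]
    exact dvd_mul_right _ _
  by_cases hle : x0 ≤ Q
  · exact ⟨x0, hx0odd, hle, by exact_mod_cast hz0⟩
  · refine ⟨2 * Q - x0, ?_, by omega, ?_⟩
    · rw [Nat.odd_iff] at hx0odd ⊢
      omega
    · have hz1 : (Q : ℤ) ∣ (d : ℤ) + (2 * Q - x0 : ℤ) ^ 2 := by
        have h3 : (Q : ℤ) ∣ (d : ℤ) + (-(x0 : ℤ)) ^ 2 := by rwa [neg_sq]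
        refine dvd_sq_add h3 ?_
        have : (2 * Q - x0 : ℤ) - -(x0 : ℤ) = Q * 2 := by ring
        rw [this]
        exact dvd_mul_right _ _
      have h4 : ((2 * Q - x0 : ℕ) : ℤ) = 2 * Q - x0 := by
        push_cast [Nat.cast_sub hlt.le]
        ring
      rw [← h4] at hz1
      exact_mod_cast hz1

/-- Three pairwise coprime odd moduli with a common root. -/
theorem three_le_of_root {d a b c w : ℕ} (ha : 1 < a) (hb : 1 < b) (hc : 1 < c)
    (hab : Nat.Coprime a b) (hac : Nat.Coprime a c) (hbc : Nat.Coprime b c)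
    (hodd : Odd (a * b * c)) (h : a * b * c ∣ d + w ^ 2) (hd : (a * b * c) ^ 2 ≤ d) :
    3 ≤ Modd d := by
  have hQ : 0 < a * b * c := by positivity
  obtain ⟨w', hw', hww⟩ : ∃ w', Odd w' ∧ a * b * c ∣ d + w' ^ 2 := by
    rcases Nat.even_or_odd w with hev | hod
    · refine ⟨w + a * b * c, hev.add_odd hodd, ?_⟩
      have : d + (w + a * b * c) ^ 2 = d + w ^ 2 + a * b * c * (2 * w + a * b * c) := by ring
      rw [this]
      exact dvd_add h (dvd_mul_right _ _)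
    · exact ⟨w, hod, h⟩
  obtain ⟨x, hx, hxQ, hdx⟩ := exists_odd_root hQ hw' hww
  have hxd : x * x ≤ d := by
    refine le_trans ?_ hd
    rw [← sq]
    exact Nat.pow_le_pow_left hxQ 2
  have hpos := hx.pos
  refine (three_le_card (n := d + x ^ 2) (by positivity) ha hb hc ?_ ?_ ?_ hab hac hbc).trans
    (card_le_Modd hx hxd)
  · exact Dvd.dvd.trans ⟨b * c, by ring⟩ hdx
  · exact Dvd.dvd.trans ⟨a * c, by ring⟩ hdx
  · exact Dvd.dvd.trans ⟨a * b, by ring⟩ hdx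

theorem crt_step {d a b u v : ℕ} (hab : Nat.Coprime a b) (hu : a ∣ d + u ^ 2)
    (hv : b ∣ d + v ^ 2) : ∃ w, a * b ∣ d + w ^ 2 := by
  obtain ⟨w, h1, h2⟩ := Nat.chineseRemainder hab u v
  refine ⟨w, hab.mul_dvd_of_dvd_of_dvd ?_ ?_⟩
  · have h3 : (a : ℤ) ∣ (d : ℤ) + (u : ℤ) ^ 2 := by exact_mod_cast Int.natCast_dvd_natCast.2 hu
    have h4 : (a : ℤ) ∣ (w : ℤ) - u := by
      have := (Nat.modEq_iff_dvd.1 h1.symm)
      exact this
    exact_mod_cast dvd_sq_add h3 h4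
  · have h3 : (b : ℤ) ∣ (d : ℤ) + (v : ℤ) ^ 2 := by exact_mod_cast Int.natCast_dvd_natCast.2 hv
    have h4 : (b : ℤ) ∣ (w : ℤ) - v := by
      have := (Nat.modEq_iff_dvd.1 h2.symm)
      exact this
    exact_mod_cast dvd_sq_add h3 h4

/-- The criterion: three distinct odd primes modulo which `-d` is a square. -/
theorem three_le_of_primes {d a b c : ℕ} (ha : a.Prime) (hb : b.Prime) (hc : c.Prime)
    (ha2 : a ≠ 2) (hb2 : b ≠ 2) (hc2 : c ≠ 2) (hab : a ≠ b) (hac : a ≠ c) (hbc : b ≠ c)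
    (hra : ∃ r, a ∣ d + r ^ 2) (hrb : ∃ r, b ∣ d + r ^ 2) (hrc : ∃ r, c ∣ d + r ^ 2)
    (hd : (a * b * c) ^ 2 ≤ d) : 3 ≤ Modd d := by
  obtain ⟨r, hr⟩ := hra
  obtain ⟨s, hs⟩ := hrb
  obtain ⟨t, ht⟩ := hrc
  have cab : Nat.Coprime a b := (Nat.coprime_primes ha hb).2 hab
  have cac : Nat.Coprime a c := (Nat.coprime_primes ha hc).2 hac
  have cbc : Nat.Coprime b c := (Nat.coprime_primes hb hc).2 hbc
  obtain ⟨u, hu⟩ := crt_step cab hr hs
  obtain ⟨w, hw⟩ := crt_step (Nat.Coprime.mul_left cac cbc) hu ht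
  exact three_le_of_root ha.one_lt hb.one_lt hc.one_lt cab cac cbc
    (((ha.odd_of_ne_two ha2).mul (hb.odd_of_ne_two hb2)).mul (hc.odd_of_ne_two hc2)) hw hd

/-- Fixed square classes: an explicit bound. -/
theorem three_le_of_large {e m : ℕ} (he : e % 4 = 2) (hm : 10 * (e + 1) ^ 9 ≤ m) :
    3 ≤ Modd (e * m ^ 2) := by
  have hepos : 0 < e := by omega
  have odd_minFac : ∀ n : ℕ, Odd n → 1 < n → n.minFac.Prime ∧ n.minFac ≠ 2 ∧ n.minFac ≤ n ∧
      n.minFac ∣ n := by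
    intro n hn h1
    refine ⟨Nat.minFac_prime (by omega), ?_, Nat.minFac_le (by omega), Nat.minFac_dvd n⟩
    intro h
    have : 2 ∣ n := h ▸ Nat.minFac_dvd n
    rw [Nat.odd_iff] at hn
    omega
  have heven : Even e := by rw [Nat.even_iff]; omega
  have hoddsq : ∀ y : ℕ, Odd y → Odd (e + y ^ 2) := fun y hy => heven.add_odd hy.pow
  obtain ⟨p1, h12, h1le, h1d⟩ := odd_minFac (e + 1 ^ 2) (hoddsq 1 odd_one) (by omega)
  set a := (e + 1 ^ 2).minFac with hadef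
  have ha1 := p1.one_lt
  have hao : Odd a := p1.odd_of_ne_two h12
  have hasq : 1 < e + a ^ 2 := by nlinarith
  obtain ⟨p2, h22, h2le, h2d⟩ := odd_minFac (e + a ^ 2) (hoddsq a hao) hasq
  set b := (e + a ^ 2).minFac with hbdef
  have hb1 := p2.one_lt
  have hbo : Odd b := p2.odd_of_ne_two h22
  have habsq : 1 < e + (a * b) ^ 2 := by
    have : 1 ≤ (a * b) ^ 2 := Nat.one_le_iff_ne_zero.2 (by positivity)
    omega
  obtain ⟨p3, h32, h3le, h3d⟩ := odd_minFac (e + (a * b) ^ 2) (hoddsq _ (hao.mul hbo)) habsq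
  set c := (e + (a * b) ^ 2).minFac with hcdef
  have hae : ¬ a ∣ e := by
    intro h
    have := (Nat.dvd_add_right h).1 h1d
    have h' := p1.dvd_of_dvd_pow this
    exact p1.one_lt.ne' (Nat.dvd_one.1 h')
  have hba : a ≠ b := by
    intro h
    apply hae
    have h5 : a ∣ e + a ^ 2 := by
      have := h2d
      rwa [← h] at this
    exact (Nat.dvd_add_left (dvd_pow_self a (by norm_num))).1 h5
  have hbe : ¬ b ∣ e := by
    intro h
    have := (Nat.dvd_add_right h).1 h2d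
    have h' := p2.dvd_of_dvd_pow this
    exact hba ((Nat.prime_dvd_prime_iff_eq p2 p1).1 h').symm
  have hac : a ≠ c := by
    intro h
    apply hae
    have h5 : a ∣ e + (a * b) ^ 2 := by
      have := h3d
      rwa [← h] at this
    exact (Nat.dvd_add_left (Dvd.dvd.pow (dvd_mul_right a b) (by norm_num))).1 h5
  have hbc : b ≠ c := by
    intro h
    apply hbe
    have h5 : b ∣ e + (a * b) ^ 2 := by
      have := h3d
      rwa [← h] at this
    exact (Nat.dvd_add_left (Dvd.dvd.pow (dvd_mul_left b a) (by norm_num))).1 h5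
  have root : ∀ q r : ℕ, q ∣ e + r ^ 2 → ∃ s, q ∣ e * m ^ 2 + s ^ 2 := by
    intro q r h
    refine ⟨r * m, ?_⟩
    have : e * m ^ 2 + (r * m) ^ 2 = (e + r ^ 2) * m ^ 2 := by ring
    rw [this]
    exact h.mul_right _
  refine three_le_of_primes p1 p2 p3 h12 h22 h32 hba hac hbc (root _ _ h1d) (root _ _ h2d)
    (root _ _ h3d) ?_
  -- the size bound
  set t := e + 1 with ht
  have hat : a ≤ t := by simpa using h1le
  have ht1 : 1 ≤ t := by omega
  have hbt : b ≤ 2 * t ^ 2 := by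
    have : a ^ 2 ≤ t ^ 2 := Nat.pow_le_pow_left hat 2
    nlinarith
  have habt : a * b ≤ 2 * t ^ 3 := by
    calc a * b ≤ t * (2 * t ^ 2) := Nat.mul_le_mul hat hbt
      _ = 2 * t ^ 3 := by ring
  have hct : c ≤ 5 * t ^ 6 := by
    have h6 : (a * b) ^ 2 ≤ (2 * t ^ 3) ^ 2 := Nat.pow_le_pow_left habt 2
    have h7 : (2 * t ^ 3) ^ 2 = 4 * t ^ 6 := by ring
    have h8 : e ≤ t ^ 6 := by
      calc e ≤ t := by omega
        _ = t ^ 1 := (pow_one t).symm
        _ ≤ t ^ 6 := Nat.pow_le_pow_right ht1 (by norm_num)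
    omega
  have hQ : a * b * c ≤ m := by
    calc a * b * c ≤ (2 * t ^ 3) * (5 * t ^ 6) := Nat.mul_le_mul habt hct
      _ = 10 * t ^ 9 := by ring
      _ ≤ m := hm
  calc (a * b * c) ^ 2 ≤ m ^ 2 := Nat.pow_le_pow_left hQ 2
    _ = 1 * m ^ 2 := by ring
    _ ≤ e * m ^ 2 := Nat.mul_le_mul_right _ hepos

end Pool.Agent.J6H70.MO
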