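import Pool.Agent.J6H70.MO.Basic

/-!
# Finite checks (MP_e8a6f8_nt)
-/

namespace Pool.Agent.J6H70.MO

theorem r3_0 : block 4000000 3 0 12 0 = true := by decide +kernel

theorem r3_1 : block 4000000 3 0 12 4096 = true := by decide +kernel

theorem r3_2 : block 4000000 3 0 12 8192 = true := by decide +kernel

theorem r3_3 : block 4000000 3 0 12 12288 = true := by decide +kernel

theorem r3_4 : block 4000000 3 0 12 16384 = true := by decide +kernel

theorem r3_5 : block 4000000 3 0 12 20480 = true := by decide +kernel

end Pool.Agent.J6H70.MO
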