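import Pool.Agent.J6H70.MO.Basic

/-!
# Finite checks (MP_e8a6f8_nt)
-/

namespace Pool.Agent.J6H70.MO

theorem r3_6 : block 4000000 3 0 12 24576 = true := by decide +kernel

theorem r3_7 : block 4000000 3 0 12 28672 = true := by decide +kernel

theorem r3_8 : block 4000000 3 0 12 32768 = true := by decide +kernel

theorem r3_9 : block 4000000 3 0 12 36864 = true := by decide +kernel

theorem r3_10 : block 4000000 3 0 12 40960 = true := by decide +kernel

theorem r3_11 : block 4000000 3 0 12 45056 = true := by decide +kernel

end Pool.Agent.J6H70.MO
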