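import Pool.Agent.J6H70.MO.Basic

/-!
# Finite checks (MP_e8a6f8_nt)
-/

namespace Pool.Agent.J6H70.MO

theorem r3_12 : block 4000000 3 0 12 49152 = true := by decide +kernel

theorem r3_13 : block 4000000 3 0 12 53248 = true := by decide +kernel

theorem r3_14 : block 4000000 3 0 12 57344 = true := by decide +kernel

theorem r3_15 : block 4000000 3 0 12 61440 = true := by decide +kernel

theorem r3_16 : block 4000000 3 0 12 65536 = true := by decide +kernel

theorem r3_17 : block 4000000 3 0 12 69632 = true := by decide +kernel

end Pool.Agent.J6H70.MO
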