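import Pool.Agent.J6H70.MO.Basic

/-!
# Finite checks (MP_e8a6f8_nt)
-/

namespace Pool.Agent.J6H70.MO

theorem r3_18 : block 4000000 3 0 12 73728 = true := by decide +kernel

theorem r3_19 : block 4000000 3 0 12 77824 = true := by decide +kernel

theorem r3_20 : block 4000000 3 0 12 81920 = true := by decide +kernel

theorem r3_21 : block 4000000 3 0 12 86016 = true := by decide +kernel

theorem r3_22 : block 4000000 3 0 12 90112 = true := by decide +kernel

theorem r3_23 : block 4000000 3 0 12 94208 = true := by decide +kernel

end Pool.Agent.J6H70.MO
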