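import Pool.Agent.J6H70.MO.Basic

/-!
# Finite checks (MP_e8a6f8_nt)
-/

namespace Pool.Agent.J6H70.MO

theorem r3_24 : block 4000000 3 0 12 98304 = true := by decide +kernel

theorem r3_25 : block 4000000 3 0 12 102400 = true := by decide +kernel

theorem r3_26 : block 4000000 3 0 12 106496 = true := by decide +kernel

theorem r3_27 : block 4000000 3 0 12 110592 = true := by decide +kernel

theorem r5_0 : block 4000000 5 0 12 0 = true := by decide +kernel

theorem r5_1 : block 4000000 5 0 12 4096 = true := by decide +kernel

end Pool.Agent.J6H70.MO
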