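import Pool.Agent.J6H70.MO.Basic

/-!
# Finite checks (MP_e8a6f8_nt)
-/

namespace Pool.Agent.J6H70.MO

theorem r5_8 : block 4000000 5 0 12 32768 = true := by decide +kernel

theorem r5_9 : block 4000000 5 0 12 36864 = true := by decide +kernel

theorem r7_0 : block 4000000 7 0 12 0 = true := by decide +kernel

theorem r7_1 : block 4000000 7 0 12 4096 = true := by decide +kernel

theorem r7_2 : block 4000000 7 0 12 8192 = true := by decide +kernel

theorem r7_3 : block 4000000 7 0 12 12288 = true := by decide +kernel

end Pool.Agent.J6H70.MO
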