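import Pool.Agent.J6H70.MO.Basic

/-!
# Finite checks (MP_e8a6f8_nt)
-/

namespace Pool.Agent.J6H70.MO

theorem r17 : block 4000000 17 1 12 0 = true := by decide +kernel

theorem r21 : block 4000000 21 1 12 0 = true := by decide +kernel

theorem r25 : block 4000000 25 1 11 0 = true := by decide +kernel

theorem r29 : block 4000000 29 1 11 0 = true := by decide +kernel

theorem r33 : block 4000000 33 3 10 0 = true := by decide +kernel

theorem r49 : block 4000000 49 3 9 0 = true := by decide +kernel

theorem r65 : block 4000000 65 5 8 0 = true := by decide +kernel

theorem r129 : block 4000000 129 6 6 0 = true := by decide +kernel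

theorem r257 : block 4000000 257 7 4 0 = true := by decide +kernel

theorem r513 : block 4000000 513 8 2 0 = true := by decide +kernel

theorem r1025 : block 4000000 1025 9 0 0 = true := by decide +kernel

end Pool.Agent.J6H70.MO
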