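import Pool.Agent.J6H70.MO.Basic

/-!
# The 44 exceptional values have `M_odd ≤ 2` (MP_e8a6f8_nt)
-/

namespace Pool.Agent.J6H70.MO

/-- Trial division: `n` has at most `m` prime factors. -/
def omLe : ℕ → ℕ → ℕ → ℕ → Bool
  | 0, _, _, _ => false
  | f + 1, k, n, m =>
    cond (Nat.ble n 1) true
      (cond (Nat.ble (k * k) n)
        (cond (Nat.beq (n % k) 0)
          (cond (Nat.ble 1 m) (omLe f k (n / Nat.gcd n (k ^ 17)) (m - 1)) false)
          (omLe f (k + 2) n m))
        (Nat.ble 1 m))

theorem omLe_spec : ∀ {f k n m : ℕ}, omLe f k n m = true → n ≠ 0 → 2 ≤ k → k % 2 = 1 →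
    n % 2 = 1 → (∀ p, p.Prime → p ∣ n → k ≤ p) → n.primeFactors.card ≤ m
  | 0, _, _, _, h, _, _, _, _, _ => by simp [omLe] at h
  | f + 1, k, n, m, h, hn, hk, hkodd, hnodd, hp => by
    unfold omLe at h
    rcases cond_t h with h | h
    · have h1 : n ≤ 1 := Nat.le_of_ble_eq_true h
      have h2 : n = 1 := by omega
      subst h2
      simp
    · by_cases hkk : k * k ≤ n
      · rw [Nat.ble_eq_true_of_le hkk] at h
        simp only [cond_true] at h
        by_cases hdvd : n % k = 0
        · have hb : Nat.beq (n % k) 0 = true := by rw [hdvd]; rfl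
          rw [hb] at h
          simp only [cond_true] at h
          obtain ⟨h1, h⟩ := cond_fr h
          have hm : 1 ≤ m := Nat.le_of_ble_eq_true h1
          have hkn : k ∣ n := Nat.dvd_of_mod_eq_zero hdvd
          set g := Nat.gcd n (k ^ 17) with hg
          have hgn : g ∣ n := Nat.gcd_dvd_left _ _
          have hmul : g * (n / g) = n := Nat.mul_div_cancel' hgn
          have hn' : n / g ≠ 0 := by
            intro h0
            rw [h0, mul_zero] at hmul
            exact hn hmul.symm
          have hn'd : n / g ∣ n := ⟨g, by rw [mul_comm]; exact hmul.symm⟩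
          have hn'odd : (n / g) % 2 = 1 := by
            rcases Nat.mod_two_eq_zero_or_one (n / g) with h0 | h0
            · exfalso
              have : 2 ∣ n := (Nat.dvd_of_mod_eq_zero h0).trans hn'd
              omega
            · exact h0
          have hrec := omLe_spec h hn' hk hkodd hn'odd
            (fun p hpp hpd => hp p hpp (hpd.trans hn'd))
          have hkp : ∀ r : ℕ, r.Prime → r ∣ k → r = k := by
            intro r hr hrk
            exact le_antisymm (Nat.le_of_dvd (by omega) hrk) (hp r hr (hrk.trans hkn))
          have hsub : n.primeFactors ⊆ insert k (n / g).primeFactors := by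
            intro r hr
            obtain ⟨hrp, hrn, -⟩ := Nat.mem_primeFactors.1 hr
            rw [← hmul] at hrn
            rcases (hrp.dvd_mul).1 hrn with h3 | h3
            · have h4 : r ∣ k := hrp.dvd_of_dvd_pow (h3.trans (Nat.gcd_dvd_right _ _))
              rw [hkp r hrp h4]
              exact Finset.mem_insert_self _ _
            · exact Finset.mem_insert_of_mem (Nat.mem_primeFactors.2 ⟨hrp, h3, hn'⟩)
          calc n.primeFactors.card ≤ (insert k (n / g).primeFactors).card :=
                Finset.card_le_card hsub
            _ ≤ (n / g).primeFactors.card + 1 := Finset.card_insert_le _ _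
            _ ≤ m := by omega
        · have hb : Nat.beq (n % k) 0 = false := by
            cases hc : Nat.beq (n % k) 0 with
            | false => rfl
            | true => exact absurd (Nat.eq_of_beq_eq_true hc) hdvd
          rw [hb] at h
          simp only [cond_false] at h
          refine omLe_spec h hn (by omega) (by omega) hnodd ?_
          intro p hpp hpd
          have h1 := hp p hpp hpd
          have h2 : p ≠ k := by
            rintro rfl
            exact hdvd (Nat.mod_eq_zero_of_dvd hpd)
          have h3 : p % 2 = 1 := by
            rcases Nat.mod_two_eq_zero_or_one p with h0 | h0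
            · exfalso
              have : 2 ∣ n := (Nat.dvd_of_mod_eq_zero h0).trans hpd
              omega
            · exact h0
          omega
      · have hb : Nat.ble (k * k) n = false := by
          cases hc : Nat.ble (k * k) n with
          | false => rfl
          | true => exact absurd (Nat.le_of_ble_eq_true hc) hkk
        rw [hb] at h
        simp only [cond_false] at h
        have hm : 1 ≤ m := Nat.le_of_ble_eq_true h
        by_cases hn1 : n = 1
        · subst hn1; simp
        · have hprime : n.Prime := by
            by_contra hnp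
            have h1 := Nat.minFac_sq_le_self (by omega) hnp
            have h2 := hp n.minFac (Nat.minFac_prime hn1) (Nat.minFac_dvd n)
            nlinarith
          rw [Nat.Prime.primeFactors hprime]
          simpa using hm

/-- The check for one `d`. -/
def chk (d : ℕ) : ℕ → ℕ → Bool
  | 0, _ => false
  | f + 1, x => cond (Nat.ble (x * x) d)
      (cond (omLe 200 3 (d + x * x) 2) (chk d f (x + 2)) false) true

theorem chk_spec {d : ℕ} (hd : d % 2 = 0) : ∀ {f x : ℕ}, chk d f x = true → x % 2 = 1 →
    ∀ y, y % 2 = 1 → x ≤ y → y * y ≤ d → (d + y ^ 2).primeFactors.card ≤ 2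
  | 0, _, h, _, _, _, _, _ => by simp [chk] at h
  | f + 1, x, h, hx, y, hy, hxy, hyd => by
    unfold chk at h
    have hxd : x * x ≤ d := (Nat.mul_le_mul hxy hxy).trans hyd
    rw [Nat.ble_eq_true_of_le hxd] at h
    simp only [cond_true] at h
    obtain ⟨h1, h2⟩ := cond_fr h
    by_cases hyx : y = x
    · subst hyx
      have hodd : (d + y * y) % 2 = 1 := by
        have : (y * y) % 2 = 1 := by rw [Nat.mul_mod, hy]
        omega
      rw [sq]
      refine omLe_spec h1 (by omega) (by norm_num) (by norm_num) hodd ?_
      intro p hp hpd
      have h3 : p ≠ 2 := by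
        rintro rfl
        omega
      have := hp.two_le
      omega
    · exact chk_spec hd h2 (by omega) y hy (by omega) hyd

def chkAll : List ℕ → Bool
  | [] => true
  | d :: l => cond (Nat.beq (d % 2) 0) (cond (chk d 120 1) (chkAll l) false) false

theorem chkAll_spec : ∀ {l : List ℕ}, chkAll l = true → ∀ d ∈ l, Modd d ≤ 2
  | [], _, d, hd => by simp at hd
  | e :: l, h, d, hd => by
    unfold chkAll at h
    obtain ⟨h1, h⟩ := cond_fr h
    obtain ⟨h2, h⟩ := cond_fr h
    rcases List.mem_cons.1 hd with rfl | hd
    · refine Modd_le (fun x hx hxd => ?_)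
      exact chk_spec (Nat.eq_of_beq_eq_true h1) h2 (by norm_num) x (Nat.odd_iff.1 hx) hx.pos hxd
    · exact chkAll_spec h d hd

theorem chkAll_SL : chkAll SL = true := by decide +kernel

theorem Modd_le_two_of_mem {d : ℕ} (h : d ∈ S) : Modd d ≤ 2 :=
  chkAll_spec chkAll_SL d (mem_SL_of_mem_S h)

end Pool.Agent.J6H70.MO
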