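import Pool.Agent.J6H70.MO.Classes
import Pool.Agent.J6H70.MO.Small
import Pool.Agent.J6H70.MO.R00
import Pool.Agent.J6H70.MO.R01
import Pool.Agent.J6H70.MO.R02
import Pool.Agent.J6H70.MO.R03
import Pool.Agent.J6H70.MO.R04
import Pool.Agent.J6H70.MO.R05
import Pool.Agent.J6H70.MO.R06
import Pool.Agent.J6H70.MO.R07
import Pool.Agent.J6H70.MO.R08

/-!
# The finite range and the main statements (MP_e8a6f8_nt)
-/

namespace Pool.Agent.J6H70.MO

theorem fin3 {j : ℕ} (hd : 3 * 3 * (4 * j + 2) ≤ 4000000) :
    3 * 3 * (4 * j + 2) ∈ S ∨ 3 ≤ Modd (3 * 3 * (4 * j + 2)) := by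
  by_cases h0 : j < 4096
  · exact block_spec (i := 0) r3_0 (by norm_num) (by omega) (by omega) hd
  by_cases h4096 : j < 8192
  · exact block_spec (i := 0) r3_1 (by norm_num) (by omega) (by omega) hd
  by_cases h8192 : j < 12288
  · exact block_spec (i := 0) r3_2 (by norm_num) (by omega) (by omega) hd
  by_cases h12288 : j < 16384
  · exact block_spec (i := 0) r3_3 (by norm_num) (by omega) (by omega) hd
  by_cases h16384 : j < 20480
  · exact block_spec (i := 0) r3_4 (by norm_num) (by omega) (by omega) hd
  by_cases h20480 : j < 24576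
  · exact block_spec (i := 0) r3_5 (by norm_num) (by omega) (by omega) hd
  by_cases h24576 : j < 28672
  · exact block_spec (i := 0) r3_6 (by norm_num) (by omega) (by omega) hd
  by_cases h28672 : j < 32768
  · exact block_spec (i := 0) r3_7 (by norm_num) (by omega) (by omega) hd
  by_cases h32768 : j < 36864
  · exact block_spec (i := 0) r3_8 (by norm_num) (by omega) (by omega) hd
  by_cases h36864 : j < 40960
  · exact block_spec (i := 0) r3_9 (by norm_num) (by omega) (by omega) hd
  by_cases h40960 : j < 45056
  · exact block_spec (i := 0) r3_10 (by norm_num) (by omega) (by omega) hd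
  by_cases h45056 : j < 49152
  · exact block_spec (i := 0) r3_11 (by norm_num) (by omega) (by omega) hd
  by_cases h49152 : j < 53248
  · exact block_spec (i := 0) r3_12 (by norm_num) (by omega) (by omega) hd
  by_cases h53248 : j < 57344
  · exact block_spec (i := 0) r3_13 (by norm_num) (by omega) (by omega) hd
  by_cases h57344 : j < 61440
  · exact block_spec (i := 0) r3_14 (by norm_num) (by omega) (by omega) hd
  by_cases h61440 : j < 65536
  · exact block_spec (i := 0) r3_15 (by norm_num) (by omega) (by omega) hd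
  by_cases h65536 : j < 69632
  · exact block_spec (i := 0) r3_16 (by norm_num) (by omega) (by omega) hd
  by_cases h69632 : j < 73728
  · exact block_spec (i := 0) r3_17 (by norm_num) (by omega) (by omega) hd
  by_cases h73728 : j < 77824
  · exact block_spec (i := 0) r3_18 (by norm_num) (by omega) (by omega) hd
  by_cases h77824 : j < 81920
  · exact block_spec (i := 0) r3_19 (by norm_num) (by omega) (by omega) hd
  by_cases h81920 : j < 86016
  · exact block_spec (i := 0) r3_20 (by norm_num) (by omega) (by omega) hd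
  by_cases h86016 : j < 90112
  · exact block_spec (i := 0) r3_21 (by norm_num) (by omega) (by omega) hd
  by_cases h90112 : j < 94208
  · exact block_spec (i := 0) r3_22 (by norm_num) (by omega) (by omega) hd
  by_cases h94208 : j < 98304
  · exact block_spec (i := 0) r3_23 (by norm_num) (by omega) (by omega) hd
  by_cases h98304 : j < 102400
  · exact block_spec (i := 0) r3_24 (by norm_num) (by omega) (by omega) hd
  by_cases h102400 : j < 106496
  · exact block_spec (i := 0) r3_25 (by norm_num) (by omega) (by omega) hd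
  by_cases h106496 : j < 110592
  · exact block_spec (i := 0) r3_26 (by norm_num) (by omega) (by omega) hd
  exact block_spec (i := 0) r3_27 (by norm_num) (by omega) (by omega) hd

theorem fin5 {j : ℕ} (hd : 5 * 5 * (4 * j + 2) ≤ 4000000) :
    5 * 5 * (4 * j + 2) ∈ S ∨ 3 ≤ Modd (5 * 5 * (4 * j + 2)) := by
  by_cases h0 : j < 4096
  · exact block_spec (i := 0) r5_0 (by norm_num) (by omega) (by omega) hd
  by_cases h4096 : j < 8192
  · exact block_spec (i := 0) r5_1 (by norm_num) (by omega) (by omega) hd
  by_cases h8192 : j < 12288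
  · exact block_spec (i := 0) r5_2 (by norm_num) (by omega) (by omega) hd
  by_cases h12288 : j < 16384
  · exact block_spec (i := 0) r5_3 (by norm_num) (by omega) (by omega) hd
  by_cases h16384 : j < 20480
  · exact block_spec (i := 0) r5_4 (by norm_num) (by omega) (by omega) hd
  by_cases h20480 : j < 24576
  · exact block_spec (i := 0) r5_5 (by norm_num) (by omega) (by omega) hd
  by_cases h24576 : j < 28672
  · exact block_spec (i := 0) r5_6 (by norm_num) (by omega) (by omega) hd
  by_cases h28672 : j < 32768
  · exact block_spec (i := 0) r5_7 (by norm_num) (by omega) (by omega) hd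
  by_cases h32768 : j < 36864
  · exact block_spec (i := 0) r5_8 (by norm_num) (by omega) (by omega) hd
  exact block_spec (i := 0) r5_9 (by norm_num) (by omega) (by omega) hd

theorem fin7 {j : ℕ} (hd : 7 * 7 * (4 * j + 2) ≤ 4000000) :
    7 * 7 * (4 * j + 2) ∈ S ∨ 3 ≤ Modd (7 * 7 * (4 * j + 2)) := by
  by_cases h0 : j < 4096
  · exact block_spec (i := 0) r7_0 (by norm_num) (by omega) (by omega) hd
  by_cases h4096 : j < 8192
  · exact block_spec (i := 0) r7_1 (by norm_num) (by omega) (by omega) hd
  by_cases h8192 : j < 12288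
  · exact block_spec (i := 0) r7_2 (by norm_num) (by omega) (by omega) hd
  by_cases h12288 : j < 16384
  · exact block_spec (i := 0) r7_3 (by norm_num) (by omega) (by omega) hd
  exact block_spec (i := 0) r7_4 (by norm_num) (by omega) (by omega) hd

theorem fin11 {j : ℕ} (hd : 11 * 11 * (4 * j + 2) ≤ 4000000) :
    11 * 11 * (4 * j + 2) ∈ S ∨ 3 ≤ Modd (11 * 11 * (4 * j + 2)) := by
  by_cases h0 : j < 4096
  · exact block_spec (i := 0) r11_0 (by norm_num) (by omega) (by omega) hd
  by_cases h4096 : j < 8192
  · exact block_spec (i := 0) r11_1 (by norm_num) (by omega) (by omega) hd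
  exact block_spec (i := 0) r11_2 (by norm_num) (by omega) (by omega) hd

theorem fin13 {j : ℕ} (hd : 13 * 13 * (4 * j + 2) ≤ 4000000) :
    13 * 13 * (4 * j + 2) ∈ S ∨ 3 ≤ Modd (13 * 13 * (4 * j + 2)) := by
  by_cases h0 : j < 4096
  · exact block_spec (i := 0) r13_0 (by norm_num) (by omega) (by omega) hd
  exact block_spec (i := 0) r13_1 (by norm_num) (by omega) (by omega) hd

theorem finBlock {lo m k p j : ℕ} (h : block 4000000 lo m k 0 = true) (hlo : lo % 2 = 1)
    (hp : p % 2 = 1) (h1 : lo ≤ p) (h2 : p < lo + 2 * 2 ^ m) (hj : j < 2 ^ k)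
    (hd : p * p * (4 * j + 2) ≤ 4000000) :
    p * p * (4 * j + 2) ∈ S ∨ 3 ≤ Modd (p * p * (4 * j + 2)) := by
  obtain ⟨i, rfl⟩ : ∃ i, p = 2 * i + lo := ⟨(p - lo) / 2, by omega⟩
  exact block_spec h (by omega) (Nat.zero_le j) (by omega) hd

theorem finLarge {p j : ℕ} (hp : p % 2 = 1) (h17 : 17 ≤ p)
    (hd : p * p * (4 * j + 2) ≤ 4000000) :
    p * p * (4 * j + 2) ∈ S ∨ 3 ≤ Modd (p * p * (4 * j + 2)) := by
  have bound : ∀ q : ℕ, q ≤ p → q * q * (4 * j + 2) ≤ 4000000 := fun q hq =>
    (Nat.mul_le_mul_right _ (Nat.mul_le_mul hq hq)).trans hd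
  by_cases h17 : p < 21
  · have := bound 17 (by omega)
    exact finBlock r17 (by norm_num) hp (by omega) (by omega) (by omega) hd
  by_cases h21 : p < 25
  · have := bound 21 (by omega)
    exact finBlock r21 (by norm_num) hp (by omega) (by omega) (by omega) hd
  by_cases h25 : p < 29
  · have := bound 25 (by omega)
    exact finBlock r25 (by norm_num) hp (by omega) (by omega) (by omega) hd
  by_cases h29 : p < 33
  · have := bound 29 (by omega)
    exact finBlock r29 (by norm_num) hp (by omega) (by omega) (by omega) hd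
  by_cases h33 : p < 49
  · have := bound 33 (by omega)
    exact finBlock r33 (by norm_num) hp (by omega) (by omega) (by omega) hd
  by_cases h49 : p < 65
  · have := bound 49 (by omega)
    exact finBlock r49 (by norm_num) hp (by omega) (by omega) (by omega) hd
  by_cases h65 : p < 129
  · have := bound 65 (by omega)
    exact finBlock r65 (by norm_num) hp (by omega) (by omega) (by omega) hd
  by_cases h129 : p < 257
  · have := bound 129 (by omega)
    exact finBlock r129 (by norm_num) hp (by omega) (by omega) (by omega) hd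
  by_cases h257 : p < 513
  · have := bound 257 (by omega)
    exact finBlock r257 (by norm_num) hp (by omega) (by omega) (by omega) hd
  by_cases h513 : p < 1025
  · have := bound 513 (by omega)
    exact finBlock r513 (by norm_num) hp (by omega) (by omega) (by omega) hd
  have hp2 : p < 2049 := by
    by_contra hge
    have := bound 2049 (by omega)
    omega
  have := bound 1025 (by omega)
  exact finBlock r1025 (by norm_num) hp (by omega) (by omega) (by omega) hd

/-- The finite range. -/
theorem finite_range {d : ℕ} (hd4 : d % 4 = 2) (hsq : ¬ Squarefree d) (hd : d ≤ 4000000) :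
    d ∈ S ∨ 3 ≤ Modd d := by
  obtain ⟨p, hp, hpd⟩ : ∃ p, p.Prime ∧ p * p ∣ d := by
    rw [Nat.squarefree_iff_prime_squarefree] at hsq
    push Not at hsq
    exact hsq
  obtain ⟨e, rfl⟩ := hpd
  have hp2 : p ≠ 2 := by
    rintro rfl
    omega
  have hpodd : p % 2 = 1 := Nat.odd_iff.1 (hp.odd_of_ne_two hp2)
  have he : e % 4 = 2 := by
    have h1 : (p * p) % 4 = 1 := by
      obtain ⟨y, rfl⟩ := Nat.odd_iff.2 hpodd
      have : (2 * y + 1) * (2 * y + 1) = 4 * (y * y + y) + 1 := by ring
      omega
    rw [Nat.mul_mod, h1, one_mul, Nat.mod_mod] at hd4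
    exact hd4
  obtain ⟨j, rfl⟩ : ∃ j, e = 4 * j + 2 := ⟨e / 4, by omega⟩
  by_cases h17 : 17 ≤ p
  · exact finLarge hpodd h17 hd
  · have hlt : p < 17 := not_le.1 h17
    have h3 : p = 3 ∨ p = 5 ∨ p = 7 ∨ p = 11 ∨ p = 13 := by
      interval_cases p <;> first | omega | (exfalso; revert hp; norm_num)
    rcases h3 with rfl | rfl | rfl | rfl | rfl
    · exact fin3 hd
    · exact fin5 hd
    · exact fin7 hd
    · exact fin11 hd
    · exact fin13 hd

end Pool.Agent.J6H70.MO

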